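import Pool.Agent.U299.RS.All

/-!
# MP_3688cb_co, Q1: there are infinitely many rotation snarks

For every `i ≡ 2 (mod 3)` there is a rotation `T_i`-snark. Start with the Petersen graph (`i = 2`)
and replace, again and again, every leaf of the spanning tree by a perfect binary tree with eight
leaves carrying six further edges between its leaves, and every edge between two leaves by two
edges. The block has the property that in every 3-edge-colouring the two pairs of outer edges have
two different colours each, and the third colours of the two pairs together with the colour of the
root edge are the three colours; so a colouring of the new graph gives one of the old graph.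
-/

set_option autoImplicit false

namespace Pool.Agent.Results.MP_3688cb_co.InfinitelyManyRotationSnarks

open Pool.Agent.N366.RS (IsRotationTSnark)
open Pool.Agent.U299.RS

/-- There are infinitely many pairwise non-isomorphic rotation snarks. -/
theorem result : ∃ (V : ℕ → Type) (G : ∀ n, SimpleGraph (V n)),
    (∀ n, Finite (V n)) ∧ (∀ n, IsRotationTSnark (3 * n + 2) (G n)) ∧
    ∀ m n, m ≠ n → IsEmpty (G m ≃g G n) := by
  choose V G hV hG using fun n => (ok_all n).exists (by omega)
  exact ⟨V, G, hV, hG, fun m n hmn => not_iso (by omega) (hG m) (hG n)⟩

end Pool.Agent.Results.MP_3688cb_co.InfinitelyManyRotationSnarks
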